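import Pool.Agent.F1.FinalGirth
import Pool.Agent.F1.Iterate
import Pool.Agent.F1.Bite
import Pool.Agent.F1.Valid
import Pool.Agent.F1.Comp012
import Pool.Agent.F1.Comp53
import Pool.Agent.F1.Comp4
import Pool.Agent.F1.Comp6
import Pool.Agent.F1.Overlap
import Pool.Agent.F1.TriGood
import Pool.Agent.F1.TriGirth
import Pool.Agent.F1.Count
import Pool.Agent.F1.Bounded
import Pool.Agent.F1.Exact

/-!
# Approximate triangle decompositions of high girth
-/

namespace Pool.Agent.Results.MP_6a0350_co.ApproxHighGirth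

/-- the one-bite lemma -/
theorem bite : F1.BiteStatement := by
  refine F1.Bite.bite F1.Valid.valid fun k => ?_
  fin_cases k
  · exact F1.comp0
  · exact F1.comp1
  · exact F1.comp2
  · exact F1.comp3 F1.Overlap.ovConf
  · exact F1.C4.comp4 F1.Overlap.ovPair
  · exact F1.comp5 F1.Overlap.ovConf
  · exact F1.Comp6.comp6

/-- almost perfect matchings without configurations -/
theorem matching : F1.MatchStatement := F1.Iter.matchStatement bite F1.Valid.vec_nonneg

/-- Let `g` be a natural number and `γ > 0`.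

(1) There are `η > 0` and `n₀` such that every simple graph `G` on `n ≥ n₀` vertices with minimum
degree at least `(3 / 4 - η) * n` contains a set `T` of edge-disjoint triangles of girth at least
`g` (any `k` vertices with `4 ≤ k < g` contain at most `k - 3` members of `T`) that covers all
but at most `γ * n ^ 2` edges of `G`.

(2) There is `n₀` such that every simple graph `G` on `n ≥ n₀` vertices contains a set `T` of
edge-disjoint triangles of girth at least `g` whose size is at least the total weight of every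
fractional triangle packing of `G` minus `γ * n ^ 2`. -/
theorem result (g : ℕ) (γ : ℝ) (hγ : 0 < γ) :
    (∃ η : ℝ, 0 < η ∧ ∃ n₀ : ℕ, ∀ n : ℕ, n₀ ≤ n →
      ∀ (G : SimpleGraph (Fin n)) [DecidableRel G.Adj],
      (∀ v, (3 / 4 - η) * (n : ℝ) ≤ (G.degree v : ℝ)) →
      ∃ T : Finset (Finset (Fin n)),
        (∀ t ∈ T, G.IsNClique 3 t) ∧
        (∀ u v, G.Adj u v → ∀ t ∈ T, ∀ t' ∈ T, u ∈ t → v ∈ t → u ∈ t' → v ∈ t' → t = t') ∧
        (∀ S : Finset (Fin n), 4 ≤ S.card → S.card < g →
          (T.filter (fun t => t ⊆ S)).card + 2 < S.card) ∧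
        ((G.edgeFinset.filter (fun e => ¬ ∃ t ∈ T, ∀ v ∈ e, v ∈ t)).card : ℝ)
          ≤ γ * (n : ℝ) ^ 2) ∧
    (∃ n₀ : ℕ, ∀ n : ℕ, n₀ ≤ n → ∀ (G : SimpleGraph (Fin n)) [DecidableRel G.Adj],
      ∃ T : Finset (Finset (Fin n)),
        (∀ t ∈ T, G.IsNClique 3 t) ∧
        (∀ u v, G.Adj u v → ∀ t ∈ T, ∀ t' ∈ T, u ∈ t → v ∈ t → u ∈ t' → v ∈ t' → t = t') ∧
        (∀ S : Finset (Fin n), 4 ≤ S.card → S.card < g →
          (T.filter (fun t => t ⊆ S)).card + 2 < S.card) ∧
        ∀ w : Finset (Fin n) → ℝ, (∀ t, 0 ≤ w t) →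
          (∀ u v, G.Adj u v →
            ∑ t ∈ (G.cliqueFinset 3).filter (fun t => u ∈ t ∧ v ∈ t), w t ≤ 1) →
          ∑ t ∈ G.cliqueFinset 3, w t ≤ (T.card : ℝ) + γ * (n : ℝ) ^ 2) :=
  ⟨F1.ApproxGirthStatement.simpleGraph
      (F1.approxGirth matching F1.good F1.Count.count F1.girth F1.Exact.exact) g γ hγ,
    F1.HostStatement.simpleGraph
      (F1.hostGirth matching F1.good F1.Count.count F1.girth F1.bounded) g γ hγ⟩

end Pool.Agent.Results.MP_6a0350_co.ApproxHighGirth
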