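import Mathlib
import Pool.Agent.S09297

/-! The exact minimum degree threshold for triangle decompositions of arbitrary girth. -/

set_option autoImplicit false

namespace Pool.Agent.Results.MP_6a0350_co.ExactHighGirth

universe u

variable {V : Type u}

/-- `G` is `K₃`-divisible: all degrees are even and 3 divides the number of edges. -/
def IsDivisible (G : SimpleGraph V) : Prop :=
  (∀ v, Even (G.neighborSet v).ncard) ∧ 3 ∣ G.edgeSet.ncard

/-- `T` is a `K₃`-decomposition of `G`: a set of triangles of `G` (a triangle is given by its set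
of three vertices) such that every edge of `G` lies in exactly one triangle of `T`. -/
def IsDecomposition (G : SimpleGraph V) (T : Set (Finset V)) : Prop :=
  (∀ t ∈ T, G.IsNClique 3 t) ∧ ∀ e ∈ G.edgeSet, ∃! t, t ∈ T ∧ ∀ v ∈ e, v ∈ t

/-- The number of triangles of `T` spanned by `S`: those with all three vertices in `S`. -/
noncomputable def spanned (T : Set (Finset V)) (S : Finset V) : ℕ :=
  {t : Finset V | t ∈ T ∧ t ⊆ S}.ncard

/-- The girth of a set `T` of triangles: the least integer `k ≥ 4` such that some set of `k`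
vertices spans at least `k - 2` triangles of `T`, and `⊤` if there is no such `k`. -/
noncomputable def girth (T : Set (Finset V)) : ℕ∞ :=
  sInf {k : ℕ∞ | ∃ S : Finset V, k = (S.card : ℕ∞) ∧ 4 ≤ S.card ∧ S.card ≤ spanned T S + 2}

/-- For every `g` there is `n₀` such that every `K₃`-divisible graph `G` with at least `n₀` vertices
and minimum degree at least `3|G|/4` has a `K₃`-decomposition of girth at least `g`. -/
theorem result : ∀ g : ℕ, ∃ n₀ : ℕ, ∀ (V : Type u) [Finite V] (G : SimpleGraph V),
    n₀ ≤ Nat.card V → IsDivisible G →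
    (∀ v, 3 * (Nat.card V : ℝ) / 4 ≤ ((G.neighborSet v).ncard : ℝ)) →
    ∃ T : Set (Finset V), IsDecomposition G T ∧ (g : ℕ∞) ≤ girth T := by
  intro g
  obtain ⟨N, hN⟩ := Pool.Agent.S09297.result g
  refine ⟨N, fun V _ G hV hdiv hdeg => ?_⟩
  classical
  have : Fintype V := Fintype.ofFinite V
  have e : V ≃ Fin (Nat.card V) := Finite.equivFin V
  let G' : SimpleGraph (Fin (Nat.card V)) := G.comap e.symm
  let φ : G' ≃g G := ⟨e.symm, Iff.rfl⟩
  have hdeg1 : ∀ v, (G.neighborSet v).ncard = G.degree v := by
    intro v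
    rw [← SimpleGraph.card_neighborSet_eq_degree, ← Nat.card_eq_fintype_card]
    rfl
  have hdeg2 : ∀ a, G'.degree a = (G.neighborSet (e.symm a)).ncard := by
    intro a
    rw [hdeg1, ← φ.degree_eq a]
    rfl
  have hedge : G'.edgeFinset.card = G.edgeSet.ncard := by
    rw [φ.card_edgeFinset_eq, ← Set.ncard_coe_finset, SimpleGraph.coe_edgeFinset]
  obtain ⟨T, hT1, hT2, hT3⟩ := hN (Nat.card V) hV G'
    (fun a => by rw [hdeg2]; exact hdiv.1 _)
    (by rw [hedge]; exact hdiv.2)
    (fun a => by
      rw [hdeg2]
      have h := hdeg (e.symm a)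
      have h2 : 3 * (Nat.card V : ℝ) ≤ 4 * ((G.neighborSet (e.symm a)).ncard : ℝ) := by
        linarith
      exact_mod_cast h2)
  let m : Finset (Fin (Nat.card V)) → Finset V := fun t => t.map e.symm.toEmbedding
  have hm : ∀ (t : Finset (Fin (Nat.card V))) (v : V), v ∈ m t ↔ e v ∈ t := by
    intro t v
    simp only [m, Finset.mem_map_equiv, Equiv.symm_symm]
  have hminj : Function.Injective m := Finset.map_injective _
  refine ⟨m '' (T : Set (Finset (Fin (Nat.card V)))), ⟨?_, ?_⟩, ?_⟩
  · rintro _ ⟨t, ht, rfl⟩
    have h := hT1 t ht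
    refine ⟨?_, ?_⟩
    · intro a ha b hb hab
      have ha' : e a ∈ t := (hm t a).1 ha
      have hb' : e b ∈ t := (hm t b).1 hb
      have h3 := h.isClique ha' hb' (fun hc => hab (e.injective hc))
      have h4 : G.Adj (e.symm (e a)) (e.symm (e b)) := h3
      simpa using h4
    · rw [Finset.card_map]
      exact h.card_eq
  · intro ed
    induction ed using Sym2.ind with
    | _ a b =>
      intro hab
      have hab' : G.Adj a b := hab
      have h1 : G'.Adj (e a) (e b) := by
        change G.Adj (e.symm (e a)) (e.symm (e b))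
        simpa using hab'
      obtain ⟨t, ⟨ht, hta, htb⟩, huniq⟩ := hT2 _ _ h1
      refine ⟨m t, ⟨⟨t, ht, rfl⟩, ?_⟩, ?_⟩
      · intro v hv
        rcases Sym2.mem_iff.1 hv with rfl | rfl
        · exact (hm _ _).2 hta
        · exact (hm _ _).2 htb
      · rintro _ ⟨⟨t', ht', rfl⟩, hv⟩
        congr 1
        exact huniq t' ⟨ht', (hm _ _).1 (hv a (Sym2.mem_mk_left a b)),
          (hm _ _).1 (hv b (Sym2.mem_mk_right a b))⟩
  · refine le_sInf ?_
    rintro _ ⟨S, rfl, h4, hS⟩
    by_contra hlt
    have hlt' : S.card < g := by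
      rw [not_le] at hlt
      exact_mod_cast hlt
    have hcard : (S.map e.toEmbedding).card = S.card := Finset.card_map _
    have h5 := hT3 (S.map e.toEmbedding) (by rw [hcard]; exact h4) (by rw [hcard]; exact hlt')
    rw [hcard] at h5
    have h6 : spanned (m '' (T : Set (Finset (Fin (Nat.card V))))) S =
        (T.filter (fun t => t ⊆ S.map e.toEmbedding)).card := by
      unfold spanned
      have h7 : {t : Finset V | t ∈ m '' (T : Set (Finset (Fin (Nat.card V)))) ∧ t ⊆ S} =
          m '' ((T.filter (fun t => t ⊆ S.map e.toEmbedding) :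
            Finset (Finset (Fin (Nat.card V)))) : Set (Finset (Fin (Nat.card V)))) := by
        ext t
        simp only [Set.mem_ofPred_eq, Set.mem_image, Finset.mem_coe, Finset.mem_filter]
        constructor
        · rintro ⟨⟨t', ht', rfl⟩, hsub⟩
          refine ⟨t', ⟨ht', ?_⟩, rfl⟩
          intro x hx
          have h8 : e.symm x ∈ m t' := (hm _ _).2 (by simpa using hx)
          have h9 := hsub h8
          rw [Finset.mem_map_equiv]
          exact h9
        · rintro ⟨t', ⟨ht', hsub⟩, rfl⟩
          refine ⟨⟨t', ht', rfl⟩, ?_⟩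
          intro v hv
          have h8 := hsub ((hm _ _).1 hv)
          rw [Finset.mem_map_equiv] at h8
          simpa using h8
      rw [h7, Set.ncard_image_of_injective _ hminj, Set.ncard_coe_finset]
    omega

end Pool.Agent.Results.MP_6a0350_co.ExactHighGirth
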