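import Pool.Agent.H56.NW.Main
import Pool.Agent.H56.NW.Perfect
import Pool.Agent.H56.NW.Lower

/-!
# The fractional Nash-Williams conjecture at the exact constant `3 / 4`
-/

namespace Pool.Agent.Results.MP_6a0350_co.FractionalNashWilliams

/-- (1) Every graph `G` on `n` vertices in which every vertex has degree at least `3 n / 4` has a
fractional triangle decomposition, with rational weights: a function `w` with values in `[0, 1]`
on sets of vertices, zero outside the triangles of `G`, such that for every edge `uv` the weights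
of the triangles through `uv` add up to one.

(2) The constant `3 / 4` is best possible: for every `δ < 3 / 4` there are arbitrarily large
graphs with all degrees even and at least `δ n`, and number of edges divisible by three, which
have no such weights, even if negative weights are allowed. -/
theorem result :
    (∀ (n : ℕ) (G : SimpleGraph (Fin n)) [DecidableRel G.Adj],
      (∀ v, 3 * n ≤ 4 * G.degree v) →
      ∃ w : Finset (Fin n) → ℚ,
        (∀ t, 0 ≤ w t ∧ w t ≤ 1) ∧
        (∀ t, w t ≠ 0 → G.IsNClique 3 t) ∧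
        ∀ u v, G.Adj u v →
          ∑ t ∈ Finset.univ.filter (fun t : Finset (Fin n) => u ∈ t ∧ v ∈ t), w t = 1) ∧
    (∀ (δ : ℝ), δ < 3 / 4 → ∀ n₀ : ℕ, ∃ (n : ℕ) (G : SimpleGraph (Fin n))
      (_ : DecidableRel G.Adj), n₀ ≤ n ∧ 3 ∣ G.edgeFinset.card ∧ (∀ v, Even (G.degree v)) ∧
        (∀ v, δ * (n : ℝ) ≤ (G.degree v : ℝ)) ∧ ¬ ∃ w : Finset (Fin n) → ℚ,
          (∀ t, w t ≠ 0 → G.IsNClique 3 t) ∧ ∀ u v, G.Adj u v →
            ∑ t ∈ Finset.univ.filter (fun t : Finset (Fin n) => u ∈ t ∧ v ∈ t), w t = 1) := by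
  refine ⟨?_, H56NW.lower'⟩
  intro n G _ hd
  have hex := H56NW.exists_perfect' (H56NW.ga G) (H56NW.ga01 G) (H56NW.ga_symm G) (by
    intro x
    rw [H56NW.ga_sum, Fintype.card_fin]
    have h := hd x
    have h' : (3 : ℚ) * n ≤ 4 * G.degree x := by exact_mod_cast h
    have h0 : (0 : ℚ) ≤ n := Nat.cast_nonneg n
    linarith)
  obtain ⟨w, w0, wc, w1⟩ := H56NW.frac_nash_williams G hex (by
    intro v
    rw [Fintype.card_fin]
    exact hd v)
  refine ⟨w, fun t => ⟨w0 t, ?_⟩, wc, w1⟩
  by_cases ht : w t = 0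
  · rw [ht]
    exact zero_le_one
  · have hc := wc t ht
    obtain ⟨a, b, c, hab, hac, hbc, rfl⟩ := SimpleGraph.is3Clique_iff.1 hc
    rw [← w1 a b hab]
    exact Finset.single_le_sum (f := w) (fun i _ => w0 i) (by simp)

end Pool.Agent.Results.MP_6a0350_co.FractionalNashWilliams
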